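import Pool.Agent.Y397.SL.F2

/-!
# Extracting sequences; ideals of points
-/

open Filter Topology Module MvPolynomial

namespace Pool.Agent.Y397.SL

section Seq

variable {𝕜 : Type} [RCLike 𝕜] {ι A : Type} [AddCommGroup A] (deg : ι → A)

theorem hilb_limIdeal (D : A) [Fintype (Mon deg D)] (U : Ultrafilter ℕ)
    {J : ℕ → Ideal (MvPolynomial ι 𝕜)} (h : ∀ n, IsHomog deg (J n)) (a : ℕ)
    (ha : ∀ n, hilb deg (J n) D = a) : hilb deg (limIdeal U J) D = a := by
  have h1 := fun n => finrank_idealVec_add deg D (J n)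
  have h2 := finrank_idealVec_add deg D (limIdeal U J)
  have h3 := (limSub_spec U (fun n => idealVec deg D (J n)) (Fintype.card (Mon deg D) - a)
    (fun n => by have := h1 n; rw [ha n] at this; omega)).1
  rw [idealVec_limIdeal deg D U h, h3] at h2
  have := h1 0
  rw [ha 0] at this
  omega

/-- Finitely many sequences of ideals have a common subsequence along which they converge. -/
theorem exists_seq_family [Countable A] (fin : ∀ D : A, Finite (Mon deg D)) (U : Ultrafilter ℕ)
    {κ : Type} [Fintype κ] {J : κ → ℕ → Ideal (MvPolynomial ι 𝕜)}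
    (h : ∀ x n, IsHomog deg (J x n)) (a : κ → A → ℕ)
    (ha : ∀ x n D, hilb deg (J x n) D = a x D) :
    ∃ φ : ℕ → ℕ, ∀ x, Converges deg (fun n => J x (φ n)) (limIdeal U (J x)) := by
  classical
  have fin' : ∀ D : A, Fintype (Mon deg D) := fun D => Fintype.ofFinite _
  obtain ⟨enum, henum⟩ := exists_surjective_nat A
  have hclose : ∀ (m j : ℕ) (x : κ), ∀ᶠ n in (U : Filter ℕ),
      ∀ f ∈ limSub U (fun n => idealVec deg (enum j) (J x n)),
        ∃ g ∈ idealVec deg (enum j) (J x n), ‖f - g‖ ≤ (1 / ((m : ℝ) + 1)) * ‖f‖ := by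
    intro m j x
    refine (limSub_spec U (fun n => idealVec deg (enum j) (J x n))
      (Fintype.card (Mon deg (enum j)) - a x (enum j)) (fun n => ?_)).2 _ (by positivity)
    have := finrank_idealVec_add deg (enum j) (J x n)
    rw [ha x n] at this
    omega
  have hex : ∀ m : ℕ, ∃ n : ℕ, ∀ x, ∀ j ≤ m,
      ∀ f ∈ limSub U (fun n => idealVec deg (enum j) (J x n)),
        ∃ g ∈ idealVec deg (enum j) (J x n), ‖f - g‖ ≤ (1 / ((m : ℝ) + 1)) * ‖f‖ := by
    intro m
    have : ∀ᶠ n in (U : Filter ℕ), ∀ x ∈ (Finset.univ : Finset κ), ∀ j ∈ Finset.range (m + 1),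
        ∀ f ∈ limSub U (fun n => idealVec deg (enum j) (J x n)),
        ∃ g ∈ idealVec deg (enum j) (J x n), ‖f - g‖ ≤ (1 / ((m : ℝ) + 1)) * ‖f‖ := by
      rw [Filter.eventually_all_finset]
      intro x _
      rw [Filter.eventually_all_finset]
      intro j _
      exact hclose m j x
    obtain ⟨n, hn⟩ := this.exists
    exact ⟨n, fun x j hj => hn x (Finset.mem_univ x) j (Finset.mem_range.2 (by omega))⟩
  choose φ hφ using hex
  refine ⟨φ, fun x D f hf hfD => ?_⟩
  obtain ⟨j, rfl⟩ := henum D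
  set v := toVec deg (enum j) f with hv
  have hfv : ofVec deg (enum j) v = f := by
    rw [hv, ofVec_toVec]; exact component_of_homog deg hfD
  have hvlim : v ∈ limSub U (fun n => idealVec deg (enum j) (J x n)) := by
    rw [← idealVec_limIdeal deg (enum j) U (h x), mem_idealVec, hfv]
    exact hf
  have hw : ∀ m : ℕ, ∃ w ∈ idealVec deg (enum j) (J x (φ m)), j ≤ m →
      ‖v - w‖ ≤ (1 / ((m : ℝ) + 1)) * ‖v‖ := by
    intro m
    by_cases hjm : j ≤ m
    · obtain ⟨w, hw, hw'⟩ := hφ m x j hjm v hvlim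
      exact ⟨w, hw, fun _ => hw'⟩
    · exact ⟨0, Submodule.zero_mem _, fun h => absurd h hjm⟩
  choose w hw hw' using hw
  have hwv : Tendsto w atTop (𝓝 v) := by
    rw [tendsto_iff_norm_sub_tendsto_zero]
    have h0 : Tendsto (fun m : ℕ => (1 / ((m : ℝ) + 1)) * ‖v‖) atTop (𝓝 0) := by
      have := (tendsto_one_div_add_atTop_nhds_zero_nat (𝕜 := ℝ)).mul_const ‖v‖
      simpa using this
    refine squeeze_zero' (Eventually.of_forall fun _ => norm_nonneg _) ?_ h0
    filter_upwards [eventually_ge_atTop j] with m hm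
    rw [norm_sub_rev]
    exact hw' m hm
  refine ⟨fun m => ofVec deg (enum j) (w m), fun m => ⟨hw m, ofVec_homog deg (enum j) _⟩,
    fun m => ?_⟩
  rw [← hfv]
  simp only [coeff_ofVec]
  split_ifs with hm
  · exact (tendsto_euclid.1 hwv) ⟨m, hm⟩
  · exact tendsto_const_nhds

end Seq

section Points

variable {𝕜 : Type} [RCLike 𝕜] {ι A : Type} [AddCommGroup A] (deg : ι → A)

theorem eval_of_mem_idealOf {k : ℕ} (p : Fin k → ι → 𝕜) {f : MvPolynomial ι 𝕜}
    (hf : f ∈ idealOf deg p) (i : Fin k) : eval (p i) f = 0 := by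
  have : idealOf deg p ≤ RingHom.ker (eval (p i)) := by
    rw [idealOf, Ideal.span_le]
    rintro g ⟨-, hg⟩
    exact hg i
  exact this hf

theorem mem_idealOf_of_homog {k : ℕ} (p : Fin k → ι → 𝕜) {f : MvPolynomial ι 𝕜} {D : A}
    (hD : IsWeightedHomogeneous deg f D) :
    f ∈ idealOf deg p ↔ ∀ i, eval (p i) f = 0 :=
  ⟨fun h i => eval_of_mem_idealOf deg p h i, fun h => Ideal.subset_span ⟨⟨D, hD⟩, h⟩⟩

theorem component_monomial_mul (m : ι →₀ ℕ) (c : 𝕜) {f : MvPolynomial ι 𝕜} {D : A}
    (hf : IsWeightedHomogeneous deg f D) (D' : A) :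
    weightedHomogeneousComponent deg D' (monomial m c * f) = 0 ∨
      weightedHomogeneousComponent deg D' (monomial m c * f) = monomial m c * f := by
  classical
  have hmul : IsWeightedHomogeneous deg (monomial m c * f) (Finsupp.weight deg m + D) :=
    (isWeightedHomogeneous_monomial deg m c rfl).mul hf
  by_cases h : Finsupp.weight deg m + D = D'
  · right
    rw [← h]
    exact component_of_homog deg hmul
  · left
    ext m'
    rw [coeff_weightedHomogeneousComponent, coeff_zero]
    split_ifs with h1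
    · by_contra hne
      exact h ((hmul hne).symm.trans h1)
    · rfl

theorem idealOf_homog {k : ℕ} (p : Fin k → ι → 𝕜) : IsHomog deg (idealOf deg p) := by
  intro f hf D
  rw [idealOf, Ideal.span, Submodule.mem_span_set] at hf
  obtain ⟨c, hc, rfl⟩ := hf
  rw [Finsupp.sum, map_sum]
  refine Ideal.sum_mem _ fun g hg => ?_
  obtain ⟨⟨D', hD'⟩, hg'⟩ := hc hg
  rw [smul_eq_mul]
  generalize c g = a
  have hmem : g ∈ idealOf deg p := Ideal.subset_span ⟨⟨D', hD'⟩, hg'⟩
  induction a using MvPolynomial.induction_on' with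
  | monomial m c =>
    rcases component_monomial_mul deg m c hD' D with h | h
    · rw [h]; exact Ideal.zero_mem _
    · rw [h]
      exact Ideal.mul_mem_left _ _ hmem
  | add P Q hP hQ =>
    rw [add_mul, map_add]
    exact Ideal.add_mem _ hP hQ

/-- Evaluation in degree `D` at the points `p`. -/
noncomputable def evalVec (D : A) [Fintype (Mon deg D)] {k : ℕ} (p : Fin k → ι → 𝕜) :
    EuclideanSpace 𝕜 (Mon deg D) →ₗ[𝕜] (Fin k → 𝕜) :=
  LinearMap.pi fun i => (aeval (R := 𝕜) (p i)).toLinearMap ∘ₗ ofVec deg D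

theorem evalVec_apply (D : A) [Fintype (Mon deg D)] {k : ℕ} (p : Fin k → ι → 𝕜)
    (v : EuclideanSpace 𝕜 (Mon deg D)) (i : Fin k) :
    evalVec deg D p v i = eval (p i) (ofVec deg D v) := by
  rw [evalVec]
  simp only [LinearMap.pi_apply, LinearMap.comp_apply, AlgHom.toLinearMap_apply]
  rw [aeval_eq_eval]

theorem evalVec_apply' (D : A) [Fintype (Mon deg D)] {k : ℕ} (p : Fin k → ι → 𝕜)
    (v : EuclideanSpace 𝕜 (Mon deg D)) (i : Fin k) :
    evalVec deg D p v i = ∑ m, v m * eval (p i) (monomial m.1 (1 : 𝕜)) := by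
  rw [evalVec_apply, ofVec_apply, map_sum]
  refine Finset.sum_congr rfl fun m _ => ?_
  rw [show monomial m.1 (v m) = C (v m) * monomial m.1 (1 : 𝕜) by
    rw [C_mul_monomial, mul_one], map_mul, eval_C]

theorem ker_evalVec (D : A) [Fintype (Mon deg D)] {k : ℕ} (p : Fin k → ι → 𝕜) :
    LinearMap.ker (evalVec deg D p) = idealVec deg D (idealOf deg p) := by
  ext v
  rw [LinearMap.mem_ker, mem_idealVec, mem_idealOf_of_homog deg p (ofVec_homog deg D v)]
  constructor
  · intro h i
    rw [← evalVec_apply, h]; rfl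
  · intro h
    funext i
    rw [evalVec_apply, h]; rfl

theorem rank_evalVec (D : A) [Fintype (Mon deg D)] {k : ℕ} (p : Fin k → ι → 𝕜) :
    finrank 𝕜 (LinearMap.range (evalVec deg D p)) = hilb deg (idealOf deg p) D := by
  have h1 := finrank_idealVec_add deg D (idealOf deg p)
  have h2 := LinearMap.finrank_range_add_finrank_ker (evalVec deg D p)
  rw [ker_evalVec] at h2
  simp only [finrank_euclideanSpace] at h2
  omega

/-- The ideals of nearby points with the same number of conditions are close. -/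
theorem close_idealOf (D : A) [Fintype (Mon deg D)] {k : ℕ} (p : Fin k → ι → 𝕜)
    (hp : hilb deg (idealOf deg p) D = min k (Fintype.card (Mon deg D))) {ε : ℝ} (hε : 0 < ε) :
    ∀ᶠ q in 𝓝 p, ∀ v ∈ idealVec deg D (idealOf deg p), ∃ w ∈ idealVec deg D (idealOf deg q),
      ‖v - w‖ ≤ ε * ‖v‖ := by
  rcases le_or_gt (Fintype.card (Mon deg D)) k with hk | hk
  · -- the evaluation is injective
    rw [min_eq_right hk] at hp
    have h1 := finrank_idealVec_add deg D (idealOf deg p)
    have h2 : finrank 𝕜 (idealVec deg D (idealOf deg p)) = 0 := by omega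
    rw [Submodule.finrank_eq_zero] at h2
    refine Eventually.of_forall fun q v hv => ⟨0, Submodule.zero_mem _, ?_⟩
    rw [h2, Submodule.mem_bot] at hv
    simp [hv]
  · -- the evaluation is surjective
    rw [min_eq_left hk.le, ← rank_evalVec] at hp
    have hsurj : Function.Surjective (evalVec deg D p) := by
      rw [← LinearMap.range_eq_top]
      apply Submodule.eq_top_of_finrank_eq
      rw [hp]; simp
    obtain ⟨R, hR⟩ := (evalVec deg D p).exists_rightInverse_of_surjective
      (LinearMap.range_eq_top.2 hsurj)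
    have hR' : ∀ x, evalVec deg D p (R x) = x := fun x => LinearMap.congr_fun hR x
    let Rc : (Fin k → 𝕜) →L[𝕜] EuclideanSpace 𝕜 (Mon deg D) := LinearMap.toContinuousLinearMap R
    have hRc : ∀ x, ‖R x‖ ≤ ‖Rc‖ * ‖x‖ := fun x => Rc.le_opNorm x
    -- the distance between the evaluations
    let δ : (Fin k → ι → 𝕜) → ℝ := fun q => ∑ i, ∑ m : Mon deg D,
      ‖eval (q i) (monomial m.1 (1 : 𝕜)) - eval (p i) (monomial m.1 (1 : 𝕜))‖
    have hδ : Tendsto δ (𝓝 p) (𝓝 0) := by
      have hc : Continuous δ := by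
        refine continuous_finsetSum _ fun i _ => continuous_finsetSum _ fun m _ => ?_
        refine Continuous.norm (Continuous.sub ?_ continuous_const)
        exact (MvPolynomial.continuous_eval (monomial m.1 (1 : 𝕜))).comp (continuous_apply i)
      have := hc.tendsto p
      simpa [δ] using this
    have hdiff : ∀ q v, ‖evalVec deg D q v - evalVec deg D p v‖ ≤ δ q * ‖v‖ := by
      intro q v
      have hδ0 : 0 ≤ δ q := Finset.sum_nonneg fun i _ => Finset.sum_nonneg fun m _ => norm_nonneg _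
      rw [pi_norm_le_iff_of_nonneg (mul_nonneg hδ0 (norm_nonneg v))]
      intro i
      rw [Pi.sub_apply, evalVec_apply', evalVec_apply', ← Finset.sum_sub_distrib]
      calc ‖∑ m, (v m * eval (q i) (monomial m.1 (1 : 𝕜)) -
              v m * eval (p i) (monomial m.1 (1 : 𝕜)))‖
          ≤ ∑ m, ‖v m * eval (q i) (monomial m.1 (1 : 𝕜)) -
              v m * eval (p i) (monomial m.1 (1 : 𝕜))‖ := norm_sum_le _ _
        _ ≤ ∑ m : Mon deg D, ‖eval (q i) (monomial m.1 (1 : 𝕜)) -
              eval (p i) (monomial m.1 (1 : 𝕜))‖ * ‖v‖ := by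
            refine Finset.sum_le_sum fun m _ => ?_
            rw [← mul_sub, norm_mul, mul_comm]
            exact mul_le_mul_of_nonneg_left (PiLp.norm_apply_le v m) (norm_nonneg _)
        _ = (∑ m : Mon deg D, ‖eval (q i) (monomial m.1 (1 : 𝕜)) -
              eval (p i) (monomial m.1 (1 : 𝕜))‖) * ‖v‖ := by rw [Finset.sum_mul]
        _ ≤ δ q * ‖v‖ := by
            refine mul_le_mul_of_nonneg_right ?_ (norm_nonneg v)
            exact Finset.single_le_sum
              (f := fun i => ∑ m : Mon deg D, ‖eval (q i) (monomial m.1 (1 : 𝕜)) -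
                eval (p i) (monomial m.1 (1 : 𝕜))‖)
              (fun i _ => Finset.sum_nonneg fun m _ => norm_nonneg _) (Finset.mem_univ i)
    have hpos : 0 < min (1 / 2) (ε / 2) / (‖Rc‖ + 1) := by positivity
    filter_upwards [hδ.eventually (gt_mem_nhds hpos)] with q hq v hv
    have hδ0 : 0 ≤ δ q := Finset.sum_nonneg fun i _ => Finset.sum_nonneg fun m _ => norm_nonneg _
    have hδR : δ q * ‖Rc‖ ≤ min (1 / 2) (ε / 2) := by
      have h1 : δ q * (‖Rc‖ + 1) < min (1 / 2) (ε / 2) := by
        rwa [lt_div_iff₀ (by positivity)] at hq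
      nlinarith [norm_nonneg Rc]
    have hδR1 : δ q * ‖Rc‖ ≤ 1 / 2 := hδR.trans (min_le_left _ _)
    have hδR2 : δ q * ‖Rc‖ ≤ ε / 2 := hδR.trans (min_le_right _ _)
    -- `T = E_q ∘ R` is close to the identity
    have hT : ∀ x, ‖evalVec deg D q (R x) - x‖ ≤ (1 / 2) * ‖x‖ := by
      intro x
      have h1 := hdiff q (R x)
      rw [hR'] at h1
      calc _ ≤ δ q * ‖R x‖ := h1
        _ ≤ δ q * (‖Rc‖ * ‖x‖) := mul_le_mul_of_nonneg_left (hRc x) hδ0
        _ = (δ q * ‖Rc‖) * ‖x‖ := by ring
        _ ≤ (1 / 2) * ‖x‖ := mul_le_mul_of_nonneg_right hδR1 (norm_nonneg x)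
    have hTlow : ∀ x, ‖x‖ ≤ 2 * ‖evalVec deg D q (R x)‖ := by
      intro x
      have h1 := hT x
      have h2 := norm_sub_norm_le x (evalVec deg D q (R x))
      rw [norm_sub_rev] at h2
      linarith
    have hTinj : Function.Injective (evalVec deg D q ∘ₗ R) := by
      rw [← LinearMap.ker_eq_bot, LinearMap.ker_eq_bot']
      intro x hx
      have := hTlow x
      rw [show evalVec deg D q (R x) = 0 from hx, norm_zero, mul_zero] at this
      exact norm_le_zero_iff.1 this
    have hTsurj := LinearMap.surjective_of_injective hTinj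
    obtain ⟨x, hx⟩ := hTsurj (evalVec deg D q v)
    have hx' : evalVec deg D q (R x) = evalVec deg D q v := hx
    refine ⟨v - R x, ?_, ?_⟩
    · rw [← ker_evalVec, LinearMap.mem_ker, map_sub, hx', sub_self]
    · rw [← ker_evalVec, LinearMap.mem_ker] at hv
      have h1 := hdiff q v
      rw [hv, sub_zero] at h1
      have h2 := hTlow x
      rw [hx'] at h2
      calc ‖v - (v - R x)‖ = ‖R x‖ := by congr 1; abel
        _ ≤ ‖Rc‖ * ‖x‖ := hRc x
        _ ≤ ‖Rc‖ * (2 * (δ q * ‖v‖)) := by
            refine mul_le_mul_of_nonneg_left (h2.trans ?_) (norm_nonneg _)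
            exact mul_le_mul_of_nonneg_left h1 (by norm_num)
        _ = 2 * (δ q * ‖Rc‖) * ‖v‖ := by ring
        _ ≤ ε * ‖v‖ := by
            refine mul_le_mul_of_nonneg_right ?_ (norm_nonneg v)
            linarith

end Points

end Pool.Agent.Y397.SL
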