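import Pool.Agent.Y397.SL.F4

/-!
# The flag condition
-/

open Filter Topology Module MvPolynomial

namespace Pool.Agent.Y397.SL

section Main

variable {𝕜 : Type} [RCLike 𝕜] {ι A : Type} [Fintype ι] [AddCommGroup A] (deg : ι → A)

/-- For each degree and each injection `e` of `Fin k` into `Fin r` the tuples of points whose members
with indices `e i` impose `min(k, dim S_D)` conditions in degree `D` contain a dense open set. -/
theorem exists_open_dense_emb (D : A) [Fintype (Mon deg D)] {r k : ℕ} (e : Fin k → Fin r)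
    (he : Function.Injective e) :
    ∃ G : Set (Fin r → ι → 𝕜), IsOpen G ∧ Dense G ∧ ∀ p ∈ G,
      hilb deg (idealOf deg fun i : Fin k => p (e i)) D = min k (Fintype.card (Mon deg D)) := by
  classical
  have hk : k ≤ r := by simpa using Fintype.card_le_of_injective e he
  obtain ⟨σ, hσ⟩ : ∃ σ : Equiv.Perm (Fin r), ∀ i, σ (Fin.castLE hk i) = e i := by
    let e₁ : {x // x ∈ Set.range (Fin.castLE hk)} ≃ {x // x ∈ Set.range e} :=
      (Equiv.ofInjective _ (Fin.castLE_injective hk)).symm.trans (Equiv.ofInjective _ he)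
    refine ⟨e₁.extendSubtype, fun i => ?_⟩
    rw [Equiv.extendSubtype_apply_of_mem e₁ _ ⟨i, rfl⟩]
    have h1 : (Equiv.ofInjective _ (Fin.castLE_injective hk)).symm
        ⟨Fin.castLE hk i, ⟨i, rfl⟩⟩ = i :=
      Equiv.ofInjective_symm_apply (Fin.castLE_injective hk) i
    simp only [e₁, Equiv.trans_apply]
    rw [h1]
    rfl
  obtain ⟨G, hGo, hGd, hG⟩ := exists_open_dense (𝕜 := 𝕜) deg D hk
  let H : (Fin r → ι → 𝕜) ≃ₜ (Fin r → ι → 𝕜) :=
    { toFun := fun p i => p (σ i)
      invFun := fun p i => p (σ.symm i)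
      left_inv := fun p => by funext i; simp
      right_inv := fun p => by funext i; simp
      continuous_toFun := by fun_prop
      continuous_invFun := by fun_prop }
  refine ⟨H ⁻¹' G, hGo.preimage H.continuous, hGd.preimage H.isOpenMap, fun p hp => ?_⟩
  have h1 := hG (H p) hp
  have h2 : (fun i : Fin k => (H p) (Fin.castLE hk i)) = fun i => p (e i) := by
    funext i
    change p (σ (Fin.castLE hk i)) = _
    rw [hσ]
  rwa [h2] at h1

/-- Every tuple of points of an open set is a limit of tuples all of whose subsets are in general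
position. -/
theorem exists_good [Countable A] (fin : ∀ D : A, Finite (Mon deg D)) {U : Set (ι → 𝕜)}
    (hU : IsOpen U) {r : ℕ} (p : Fin r → ι → 𝕜) (hp : ∀ i, p i ∈ U)
    {O : Set (Fin r → ι → 𝕜)} (hO : O ∈ 𝓝 p) :
    ∃ q ∈ O, (∀ i, q i ∈ U) ∧ ∀ (S : Finset (Fin r)) (D : A),
      hilb deg (idealOf deg fun i : Fin S.card => q (S.orderEmbOfFin rfl i)) D =
        genHilb 𝕜 deg S.card D := by
  have fin' : ∀ D : A, Fintype (Mon deg D) := fun D => Fintype.ofFinite _
  choose G hGo hGd hG using fun (x : A × Finset (Fin r)) =>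
    exists_open_dense_emb (𝕜 := 𝕜) deg x.1 (x.2.orderEmbOfFin rfl)
      (x.2.orderEmbOfFin rfl).injective
  have hd : Dense (⋂ x, G x) := dense_iInter_of_isOpen hGo hGd
  have hO' : O ∩ {q | ∀ i, q i ∈ U} ∈ 𝓝 p := by
    refine inter_mem hO ?_
    refine IsOpen.mem_nhds ?_ hp
    simp only [Set.ofPred_forall]
    exact isOpen_iInter_of_finite fun i => hU.preimage (continuous_apply i)
  obtain ⟨q, hq1, hq2⟩ := hd.inter_nhds_nonempty hO'
  refine ⟨q, hq2.1, hq2.2, fun S D => ?_⟩
  have := hG (D, S) q (Set.mem_iInter.1 hq1 _)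
  rw [genHilb, finrank_degree]
  exact this

omit [Fintype ι] in
theorem onSet_eq {r : ℕ} (q : Fin r → ι → 𝕜) (S : Finset (Fin r)) :
    onSet deg q S = idealOf deg fun i : Fin S.card => q (S.orderEmbOfFin rfl i) := by
  rw [onSet, idealOf]
  congr 1
  ext f
  refine and_congr_right fun _ => ⟨fun h i => h _ (Finset.orderEmbOfFin_mem S rfl i), ?_⟩
  intro h i hi
  have h1 : i ∈ Set.range (S.orderEmbOfFin rfl) := by
    rw [Finset.range_orderEmbOfFin]
    exact hi
  obtain ⟨j, rfl⟩ := h1
  exact h j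

/-- Homogeneous coordinates of the same point: proportional values in each degree. -/
theorem SamePoint.eval {p q : ι → 𝕜} (h : SamePoint deg p q) (D : A) :
    ∃ c : 𝕜, ∀ f : MvPolynomial ι 𝕜, IsWeightedHomogeneous deg f D →
      eval q f = c * eval p f := by
  obtain ⟨χ, hχ⟩ := h
  refine ⟨(χ (Multiplicative.ofAdd D) : 𝕜), fun f hf => ?_⟩
  rw [MvPolynomial.eval_eq, MvPolynomial.eval_eq, Finset.mul_sum]
  refine Finset.sum_congr rfl fun m hm => ?_
  have hm' : Finsupp.weight deg m = D := hf (mem_support_iff.1 hm)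
  have h1 : ∏ i ∈ m.support, q i ^ m i = (χ (Multiplicative.ofAdd D) : 𝕜) *
      ∏ i ∈ m.support, p i ^ m i := by
    have h2 : (χ (Multiplicative.ofAdd D) : 𝕜) =
        ∏ i ∈ m.support, (χ (Multiplicative.ofAdd (deg i)) : 𝕜) ^ m i := by
      rw [← hm', Finsupp.weight_apply, Finsupp.sum, ofAdd_sum, map_prod, Units.coe_prod]
      refine Finset.prod_congr rfl fun i _ => ?_
      rw [ofAdd_nsmul, map_pow, Units.val_pow_eq_pow_val]
    rw [h2, ← Finset.prod_mul_distrib]
    refine Finset.prod_congr rfl fun i _ => ?_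
    rw [hχ, mul_pow]
  rw [h1]
  ring

/-- Points imposing independent conditions in some degree are distinct. -/
theorem not_samePoint {k : ℕ} (q : Fin k → ι → 𝕜) (D : A) [Fintype (Mon deg D)]
    (h : hilb deg (idealOf deg q) D = k) (i j : Fin k) (hij : i ≠ j) :
    ¬ SamePoint deg (q i) (q j) := by
  intro hs
  obtain ⟨c, hc⟩ := hs.eval deg D
  rw [← rank_evalVec] at h
  have hsurj : Function.Surjective (evalVec deg D q) := by
    rw [← LinearMap.range_eq_top]
    apply Submodule.eq_top_of_finrank_eq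
    rw [h]; simp
  obtain ⟨v, hv⟩ := hsurj (Pi.single j 1)
  have h1 : evalVec deg D q v j = c * evalVec deg D q v i := by
    rw [evalVec_apply, evalVec_apply]
    exact hc _ (ofVec_homog deg D v)
  rw [hv] at h1
  simp [hij] at h1

omit [Fintype ι] in
theorem mem_onSet {r : ℕ} (q : Fin r → ι → 𝕜) (S : Finset (Fin r)) {f : MvPolynomial ι 𝕜} {D : A}
    (hD : IsWeightedHomogeneous deg f D) : f ∈ onSet deg q S ↔ ∀ i ∈ S, eval (q i) f = 0 := by
  rw [onSet_eq, mem_idealOf_of_homog deg _ hD]
  constructor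
  · intro h i hi
    have h1 : i ∈ Set.range (S.orderEmbOfFin rfl) := by
      rw [Finset.range_orderEmbOfFin]
      exact hi
    obtain ⟨j, rfl⟩ := h1
    exact h j
  · intro h i
    exact h _ (Finset.orderEmbOfFin_mem S rfl i)

theorem onSet_anti {r : ℕ} (q : Fin r → ι → 𝕜) {S T : Finset (Fin r)} (h : S ⊆ T) :
    onSet deg q T ≤ onSet deg q S := by
  exact Ideal.span_mono fun f hf => ⟨hf.1, fun i hi => hf.2 i (h hi)⟩

theorem onSet_mul {r : ℕ} (q : Fin r → ι → 𝕜) (S T : Finset (Fin r)) :
    onSet deg q S * onSet deg q T ≤ onSet deg q (S ∪ T) := by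
  conv_lhs => rw [onSet, onSet, Ideal.span_mul_span']
  rw [Ideal.span_le]
  rintro _ ⟨f, ⟨⟨D, hD⟩, hf⟩, g, ⟨⟨D', hD'⟩, hg⟩, rfl⟩
  refine (mem_onSet deg q (S ∪ T) (hD.mul hD')).2 fun i hi => ?_
  rw [map_mul]
  rcases Finset.mem_union.1 hi with h | h
  · rw [hf i h, zero_mul]
  · rw [hg i h, mul_zero]

theorem onSet_univ {r : ℕ} (q : Fin r → ι → 𝕜) : onSet deg q Finset.univ = idealOf deg q := by
  rw [onSet, idealOf]
  congr 1
  ext f
  exact and_congr_right fun _ => ⟨fun h i => h i (Finset.mem_univ i), fun h i _ => h i⟩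

omit [Fintype ι] in
/-- The product of two limits is contained in the limit of the products. -/
theorem limIdeal_mul (V : Ultrafilter ℕ) {J J' J'' : ℕ → Ideal (MvPolynomial ι 𝕜)}
    (h : ∀ n, J n * J' n ≤ J'' n) : limIdeal V J * limIdeal V J' ≤ limIdeal V J'' := by
  classical
  rw [Ideal.mul_le]
  rintro f ⟨a, ha, haf⟩ g ⟨b, hb, hbg⟩
  refine ⟨fun n => a n * b n, fun n => h n (Ideal.mul_mem_mul (ha n) (hb n)), fun m => ?_⟩
  simp only [coeff_mul]
  exact tendsto_finsetSum _ fun x _ => (haf x.1).mul (hbg x.2)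

omit [Fintype ι] in
/-- Homogeneous ideals contained in each other with the same Hilbert function are equal. -/
theorem eq_of_hilb (fin : ∀ D : A, Finite (Mon deg D)) {I J : Ideal (MvPolynomial ι 𝕜)}
    (hIJ : I ≤ J) (hJ : IsHomog deg J) (h : ∀ D, hilb deg I D = hilb deg J D) : I = J := by
  classical
  apply le_antisymm hIJ
  intro f hf
  rw [← sum_weightedHomogeneousComponent deg f, finsum_eq_sum _
    (weightedHomogeneousComponent_finsupp f)]
  refine Ideal.sum_mem _ fun D _ => ?_
  have : Fintype (Mon deg D) := Fintype.ofFinite _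
  have h1 := finrank_idealVec_add deg D I
  have h2 := finrank_idealVec_add deg D J
  have h3 : idealVec deg D I = idealVec deg D J := by
    apply Submodule.eq_of_le_of_finrank_eq
    · intro v hv
      exact hIJ hv
    · have := h D
      omega
  have h4 : toVec deg D f ∈ idealVec deg D J := by
    rw [mem_idealVec, ofVec_toVec]
    exact hJ f hf D
  rw [← h3, mem_idealVec, ofVec_toVec] at h4
  exact h4

/-- **The Boolean flag condition** -/
theorem boolean [Countable A] (fin : ∀ D : A, Finite (Mon deg D)) {U : Set (ι → 𝕜)}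
    (hU : IsOpen U) {r : ℕ}
    (hbig : ∃ D : A, r ≤ finrank 𝕜 (weightedHomogeneousSubmodule 𝕜 deg D))
    (I : Ideal (MvPolynomial ι 𝕜)) (hI : I ∈ slip deg U r) :
    ∃ (J : Finset (Fin r) → Ideal (MvPolynomial ι 𝕜)) (q : ℕ → Fin r → ι → 𝕜),
      J Finset.univ = I ∧ J ∅ = ⊤ ∧ (∀ S, J S ∈ slip deg U S.card) ∧
      (∀ S T, S ⊆ T → J T ≤ J S) ∧ (∀ S T, J S * J T ≤ J (S ∪ T)) ∧
      (∀ n i, q n i ∈ U) ∧ ∀ S, (∀ n D, hilb deg (onSet deg (q n) S) D = genHilb 𝕜 deg S.card D) ∧
        Converges deg (fun n => onSet deg (q n) S) (J S) := by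
  classical
  have fin' : ∀ D : A, Fintype (Mon deg D) := fun D => Fintype.ofFinite _
  obtain ⟨enum, henum⟩ := exists_surjective_nat A
  obtain ⟨hIh, hIf, J₀, hJ₀, hconv⟩ := hI
  choose p hpU hpd hpJ hpf using hJ₀
  -- nearby points in general position
  have hex : ∀ n : ℕ, ∃ q : Fin r → ι → 𝕜, (∀ j ≤ n,
      ∀ v ∈ idealVec deg (enum j) (idealOf deg (p n)),
        ∃ w ∈ idealVec deg (enum j) (idealOf deg q), ‖v - w‖ ≤ (1 / ((n : ℝ) + 1)) * ‖v‖) ∧
      (∀ i, q i ∈ U) ∧ ∀ (S : Finset (Fin r)) (D : A),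
      hilb deg (onSet deg q S) D = genHilb 𝕜 deg S.card D := by
    intro n
    have hO : {q : Fin r → ι → 𝕜 | ∀ j ∈ Finset.range (n + 1),
        ∀ v ∈ idealVec deg (enum j) (idealOf deg (p n)),
        ∃ w ∈ idealVec deg (enum j) (idealOf deg q), ‖v - w‖ ≤ (1 / ((n : ℝ) + 1)) * ‖v‖}
        ∈ 𝓝 (p n) := by
      have : ∀ᶠ q in 𝓝 (p n), ∀ j ∈ Finset.range (n + 1),
          ∀ v ∈ idealVec deg (enum j) (idealOf deg (p n)),
          ∃ w ∈ idealVec deg (enum j) (idealOf deg q),
            ‖v - w‖ ≤ (1 / ((n : ℝ) + 1)) * ‖v‖ := by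
        rw [Filter.eventually_all_finset]
        intro j _
        apply close_idealOf deg (enum j) (p n)
        · have := hpf n (enum j)
          rw [hpJ n, genHilb, finrank_degree] at this
          exact this
        · positivity
      exact this
    obtain ⟨q, hq, hqU, hqk⟩ := exists_good deg fin hU (p n) (hpU n) hO
    exact ⟨q, fun j hj => hq j (Finset.mem_range.2 (by omega)), hqU, fun S D => by
      rw [onSet_eq]; exact hqk S D⟩
  choose q hqc hqU hqk using hex
  let 𝒰 : Ultrafilter ℕ := Filter.hyperfilter ℕ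
  have h𝒰 : (𝒰 : Filter ℕ) ≤ atTop := by
    rw [← Nat.cofinite_eq_atTop]
    exact Filter.hyperfilter_le_cofinite
  let K : Finset (Fin r) → ℕ → Ideal (MvPolynomial ι 𝕜) := fun S n => onSet deg (q n) S
  have hKh : ∀ S n, IsHomog deg (K S n) := fun S n => by
    change IsHomog deg (onSet deg (q n) S)
    rw [onSet_eq]
    exact idealOf_homog deg _
  have hKf : ∀ S n D, hilb deg (K S n) D = genHilb 𝕜 deg S.card D := fun S n D => hqk n S D
  -- the limit ideals are in the Slip varieties
  obtain ⟨D₀, hD₀⟩ := hbig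
  obtain ⟨φ, hφ⟩ := exists_seq_family deg fin 𝒰 (J := K) hKh (fun S D => genHilb 𝕜 deg S.card D)
    hKf
  have hslip : ∀ S, limIdeal 𝒰 (K S) ∈ slip deg U S.card := by
    intro S
    have hSr : S.card ≤ r := by simpa using Finset.card_le_univ S
    refine ⟨limIdeal_homog deg 𝒰 (hKh S), fun D => hilb_limIdeal deg D 𝒰 (hKh S) _
      (fun n => hKf S n D), fun n => K S (φ n), fun n => ?_, hφ S⟩
    refine ⟨fun i => q (φ n) (S.orderEmbOfFin rfl i), fun i => hqU _ _, ?_, onSet_eq deg _ _,
      hKf S _⟩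
    apply not_samePoint deg _ D₀
    have h1 := hqk (φ n) S D₀
    rw [onSet_eq] at h1
    rw [h1, genHilb, min_eq_left (hSr.trans hD₀)]
  -- `I` is contained in the limit of the ideals of the `q n`
  have hIle : I ≤ limIdeal 𝒰 (K Finset.univ) := by
    have hhom : ∀ D, ∀ f ∈ I, IsWeightedHomogeneous deg f D →
        f ∈ limIdeal 𝒰 (K Finset.univ) := by
      intro D f hf hfD
      obtain ⟨j, rfl⟩ := henum D
      obtain ⟨g, hg, hgf⟩ := hconv (enum j) f hf hfD
      set v : ℕ → EuclideanSpace 𝕜 (Mon deg (enum j)) := fun n => toVec deg (enum j) (g n) with hv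
      have hvI : ∀ n, v n ∈ idealVec deg (enum j) (idealOf deg (p n)) := by
        intro n
        rw [mem_idealVec, hv]
        simp only [ofVec_toVec]
        rw [component_of_homog deg (hg n).2, ← hpJ n]
        exact (hg n).1
      have hw : ∀ n : ℕ, ∃ w ∈ idealVec deg (enum j) (K Finset.univ n), j ≤ n →
          ‖v n - w‖ ≤ (1 / ((n : ℝ) + 1)) * ‖v n‖ := by
        intro n
        by_cases hjn : j ≤ n
        · obtain ⟨w, hw, hw'⟩ := hqc n j hjn (v n) (hvI n)
          refine ⟨w, ?_, fun _ => hw'⟩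
          change w ∈ idealVec deg (enum j) (onSet deg (q n) Finset.univ)
          rw [onSet_univ]
          exact hw
        · exact ⟨0, Submodule.zero_mem _, fun h => absurd h hjn⟩
      choose w hw hw' using hw
      have hvt : Tendsto v atTop (𝓝 (toVec deg (enum j) f)) := by
        rw [tendsto_euclid]
        intro m
        exact hgf m.1
      have hwt : Tendsto w atTop (𝓝 (toVec deg (enum j) f)) := by
        have h1 : Tendsto (fun n => v n - w n) atTop (𝓝 0) := by
          rw [tendsto_zero_iff_norm_tendsto_zero]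
          have h0 : Tendsto (fun n : ℕ => (1 / ((n : ℝ) + 1)) * ‖v n‖) atTop (𝓝 0) := by
            have := (tendsto_one_div_add_atTop_nhds_zero_nat (𝕜 := ℝ)).mul hvt.norm
            simpa using this
          refine squeeze_zero' (Eventually.of_forall fun _ => norm_nonneg _) ?_ h0
          filter_upwards [eventually_ge_atTop j] with n hn
          exact hw' n hn
        have h2 := hvt.sub h1
        simpa using h2
      refine ⟨fun n => ofVec deg (enum j) (w n), fun n => hw n, fun m => ?_⟩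
      have hff : f = ofVec deg (enum j) (toVec deg (enum j) f) := by
        rw [ofVec_toVec]; exact (component_of_homog deg hfD).symm
      rw [hff]
      simp only [coeff_ofVec]
      split_ifs with hm
      · exact ((tendsto_euclid.1 hwt) ⟨m, hm⟩).mono_left h𝒰
      · exact tendsto_const_nhds
    intro f hf
    rw [← sum_weightedHomogeneousComponent deg f, finsum_eq_sum _
      (weightedHomogeneousComponent_finsupp f)]
    refine Ideal.sum_mem _ fun D _ => ?_
    exact hhom D _ (hIh f hf D) (weightedHomogeneousComponent_isWeightedHomogeneous D f)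
  refine ⟨fun S => limIdeal 𝒰 (K S), fun n => q (φ n), ?_, ?_, hslip, ?_, ?_, fun n i => hqU _ i,
    fun S => ⟨fun n D => hKf S (φ n) D, hφ S⟩⟩
  · refine (eq_of_hilb deg fin hIle (hslip _).1 fun D => ?_).symm
    rw [hIf D, (hslip _).2.1 D, Finset.card_univ, Fintype.card_fin]
  · rw [Ideal.eq_top_iff_one]
    refine ⟨fun _ => 1, fun n => ?_, fun m => tendsto_const_nhds⟩
    exact (mem_onSet deg (q n) ∅ (isWeightedHomogeneous_one 𝕜 deg)).2 fun i hi => by simp at hi
  · exact fun S T h => limIdeal_mono 𝒰 fun n => onSet_anti deg (q n) h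
  · exact fun S T => limIdeal_mul 𝒰 fun n => onSet_mul deg (q n) S T

end Main

end Pool.Agent.Y397.SL
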