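import Pool.Agent.Y397.SL.F5

/-!
# Complete simplicial toric varieties
-/

open Filter Topology Module MvPolynomial

namespace Pool.Agent.Y397.SL

/-- The vector `v ∈ ℝⁿ` is in the cone spanned by the `ray i`, `i ∈ σ`. -/
def InCone {n : ℕ} {ι : Type} [Fintype ι] (ray : ι → Fin n → ℤ) (σ : Finset ι)
    (v : Fin n → ℝ) : Prop :=
  ∃ c : ι → ℝ, (∀ i, 0 ≤ c i) ∧ (∀ i, i ∉ σ → c i = 0) ∧ ∀ j, v j = ∑ i, c i * (ray i j : ℝ)

/-- The pairing `⟨m, u⟩` of `m ∈ ℤⁿ` with `u ∈ ℤⁿ`. -/
def pair {n : ℕ} (m u : Fin n → ℤ) : ℤ := ∑ j, m j * u j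

/-- The fan of a complete simplicial toric variety of dimension `n` (for instance of a smooth
projective one), given by the generators `ray i ∈ ℤⁿ`, `i ∈ ι`, of its rays and by its maximal
cones, which are given by the sets of their rays. (The generators need not be primitive.) -/
structure Fan (n : ℕ) (ι : Type) [Fintype ι] where
  /-- the generators of the rays -/
  ray : ι → Fin n → ℤ
  /-- the maximal cones -/
  cones : Set (Finset ι)
  /-- the fan is simplicial: the generators of the rays of each maximal cone are linearly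
  independent, and their number is `n` -/
  independent : ∀ σ ∈ cones, LinearIndependent ℤ (fun i : σ => ray i)
  full : ∀ σ ∈ cones, σ.card = n
  /-- two cones intersect in their common face -/
  inter : ∀ σ ∈ cones, ∀ τ ∈ cones, ∀ v, InCone ray σ v → InCone ray τ v →
    ∃ ρ : Finset ι, ρ ⊆ σ ∧ ρ ⊆ τ ∧ InCone ray ρ v
  /-- completeness -/
  complete : ∀ v : Fin n → ℝ, ∃ σ ∈ cones, InCone ray σ v
  /-- every ray belongs to a maximal cone -/
  used : ∀ i, ∃ σ ∈ cones, i ∈ σ

namespace Fan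

variable {n : ℕ} {ι : Type} [Fintype ι] (X : Fan n ι)

/-- The divisor `∑ ⟨m, uᵢ⟩ Dᵢ` of the character `m`. -/
def divMap : (Fin n → ℤ) →+ (ι → ℤ) where
  toFun m := fun i => pair m (X.ray i)
  map_zero' := by funext i; simp [pair]
  map_add' a b := by
    funext i
    simp only [pair, Pi.add_apply, add_mul, Finset.sum_add_distrib]

/-- The class group of `X`: the divisors `∑ aᵢ Dᵢ` modulo those of the characters. -/
abbrev Cl : Type := (ι → ℤ) ⧸ X.divMap.range

/-- The degree of the variable `xᵢ` of the Cox ring: the class of `Dᵢ`. -/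
def deg [DecidableEq ι] (i : ι) : X.Cl := QuotientAddGroup.mk (Pi.single i 1)

/-- The complement `𝕜^ι ∖ V(B)` of the zero set of the irrelevant ideal
`B = (∏_{i ∉ σ} xᵢ : σ a maximal cone)`, so that `X` is its quotient by `Hom(Cl X, 𝕜ˣ)`. -/
def locus (𝕜 : Type) [RCLike 𝕜] : Set (ι → 𝕜) := {p | ∃ σ ∈ X.cones, ∀ i, i ∉ σ → p i ≠ 0}

theorem locus_open (𝕜 : Type) [RCLike 𝕜] : IsOpen (X.locus 𝕜) := by
  have : X.locus 𝕜 = ⋃ σ ∈ X.cones, ⋂ i : ι, {p : ι → 𝕜 | i ∉ σ → p i ≠ 0} := by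
    ext p
    simp [locus]
  rw [this]
  refine isOpen_biUnion fun σ _ => isOpen_iInter_of_finite fun i => ?_
  by_cases hi : i ∈ σ
  · simp [hi]
  · simp only [hi, not_false_eq_true, forall_const]
    exact isOpen_ne_fun (continuous_apply i) continuous_const

variable [DecidableEq ι]

theorem weight_deg (m : ι →₀ ℕ) :
    Finsupp.weight X.deg m = QuotientAddGroup.mk fun i => (m i : ℤ) := by
  rw [Finsupp.weight_apply, Finsupp.sum_fintype _ _ (by simp)]
  have h1 : ∀ i, m i • X.deg i = QuotientAddGroup.mk (Pi.single i (m i : ℤ)) := by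
    intro i
    rw [deg, ← QuotientAddGroup.mk_nsmul]
    congr 1
    funext j
    by_cases hj : j = i
    · subst hj; simp
    · simp [hj]
  simp only [h1]
  rw [← QuotientAddGroup.coe_mk' , ← map_sum]
  congr 1
  funext j
  rw [Finset.sum_apply]
  simp [Pi.single_apply]

/-- A point `l ∈ ℤⁿ` with `⟨l, uᵢ⟩ ≥ -aᵢ` for all `i` is bounded. -/
theorem bounded (a : ι → ℤ) : ∃ B : ℤ, ∀ l : Fin n → ℤ, (∀ i, - a i ≤ pair l (X.ray i)) →
    ∀ j, |l j| ≤ B := by
  -- for each `v` a lower bound of `⟨l, v⟩`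
  have hv : ∀ v : Fin n → ℝ, ∃ C : ℝ, ∀ l : Fin n → ℤ, (∀ i, - a i ≤ pair l (X.ray i)) →
      -C ≤ ∑ j, (l j : ℝ) * v j := by
    intro v
    obtain ⟨σ, -, c, hc0, -, hcv⟩ := X.complete v
    refine ⟨∑ i, c i * a i, fun l hl => ?_⟩
    have h1 : ∑ j, (l j : ℝ) * v j = ∑ i, c i * (pair l (X.ray i) : ℝ) := by
      simp only [hcv, Finset.mul_sum, pair, Int.cast_sum, Int.cast_mul]
      rw [Finset.sum_comm]
      refine Finset.sum_congr rfl fun i _ => Finset.sum_congr rfl fun j _ => ?_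
      ring
    rw [h1, ← Finset.sum_neg_distrib]
    refine Finset.sum_le_sum fun i _ => ?_
    have h2 : -(a i : ℝ) ≤ (pair l (X.ray i) : ℝ) := by exact_mod_cast hl i
    nlinarith [hc0 i]
  choose C hC using hv
  obtain ⟨B, hB⟩ : ∃ B : ℤ, ∀ j : Fin n, C (Pi.single j 1) ≤ B ∧ C (Pi.single j (-1)) ≤ B := by
    obtain ⟨B, hB⟩ := exists_int_ge (∑ j : Fin n, (|C (Pi.single j 1)| + |C (Pi.single j (-1))|))
    refine ⟨B, fun j => ?_⟩
    have h1 : |C (Pi.single j 1)| + |C (Pi.single j (-1))| ≤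
        ∑ j : Fin n, (|C (Pi.single j 1)| + |C (Pi.single j (-1))|) :=
      Finset.single_le_sum (f := fun j : Fin n => |C (Pi.single j 1)| + |C (Pi.single j (-1))|)
        (fun i _ => by positivity) (Finset.mem_univ j)
    constructor
    · linarith [le_abs_self (C (Pi.single j 1)), abs_nonneg (C (Pi.single j (-1)))]
    · linarith [le_abs_self (C (Pi.single j (-1))), abs_nonneg (C (Pi.single j 1))]
  refine ⟨B, fun l hl j => ?_⟩
  have h1 := hC (Pi.single j 1) l hl
  have h2 := hC (Pi.single j (-1)) l hl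
  rw [Finset.sum_eq_single j (by intro i _ hi; simp [hi]) (by simp)] at h1 h2
  simp only [Pi.single_eq_same] at h1 h2
  rw [abs_le]
  constructor
  · have : -(B : ℝ) ≤ (l j : ℝ) := by linarith [(hB j).1]
    exact_mod_cast this
  · have : (l j : ℝ) ≤ (B : ℝ) := by linarith [(hB j).2]
    exact_mod_cast this

theorem finite_mon (D : X.Cl) : Finite (Mon X.deg D) := by
  obtain ⟨a, rfl⟩ := QuotientAddGroup.mk_surjective D
  obtain ⟨B, hB⟩ := X.bounded a
  have hex : ∀ m : Mon X.deg (QuotientAddGroup.mk a), ∃ l : Fin n → ℤ,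
      ∀ i, (m.1 i : ℤ) = a i + pair l (X.ray i) := by
    intro m
    have h1 := m.2
    rw [weight_deg, eq_comm, QuotientAddGroup.eq] at h1
    obtain ⟨l, hl⟩ := h1
    refine ⟨l, fun i => ?_⟩
    have := congrFun hl i
    simp only [Pi.add_apply, Pi.neg_apply] at this
    change pair l (X.ray i) = _ at this
    rw [this]; ring
  choose l hl using hex
  have hb : ∀ m, l m ∈ Set.Icc (fun _ => -B : Fin n → ℤ) (fun _ => B) := by
    intro m
    have := hB (l m) (fun i => by have := hl m i; omega)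
    exact ⟨fun j => (abs_le.1 (this j)).1, fun j => (abs_le.1 (this j)).2⟩
  have hinj : Function.Injective (fun m => (⟨l m, hb m⟩ :
      Set.Icc (fun _ => -B : Fin n → ℤ) (fun _ => B))) := by
    intro m m' h
    have h1 : l m = l m' := congrArg Subtype.val h
    apply Subtype.ext
    ext i
    have h2 := hl m i
    have h3 := hl m' i
    rw [h1] at h2
    omega
  have : Finite (Set.Icc (fun _ => -B : Fin n → ℤ) (fun _ => B)) :=
    (Set.finite_Icc _ _).to_subtype
  exact Finite.of_injective _ hinj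

/-- In positive dimension there are arbitrarily large degrees. -/
theorem exists_big (𝕜 : Type) [RCLike 𝕜] (hn : 1 ≤ n) (r : ℕ) :
    ∃ D : X.Cl, r ≤ finrank 𝕜 (weightedHomogeneousSubmodule 𝕜 X.deg D) := by
  let z : Fin n := ⟨0, hn⟩
  obtain ⟨i₀, hi₀⟩ : ∃ i, X.ray i z ≠ 0 := by
    by_contra hcon
    push Not at hcon
    obtain ⟨σ, -, c, -, -, hcv⟩ := X.complete (Pi.single z 1)
    have := hcv z
    simp [hcon] at this
  let a : ι → ℤ := fun i => r * |X.ray i z|
  let D : X.Cl := QuotientAddGroup.mk a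
  refine ⟨D, ?_⟩
  have := X.finite_mon D
  have : Fintype (Mon X.deg D) := Fintype.ofFinite _
  rw [finrank_degree]
  have hnn : ∀ (t : Fin r) (i : ι), 0 ≤ a i + (t.1 : ℤ) * X.ray i z := by
    intro t i
    have h1 : ((t.1 : ℤ)) ≤ r := by exact_mod_cast t.2.le
    have h2 : -(|X.ray i z|) ≤ X.ray i z := neg_abs_le _
    have h3 : (0 : ℤ) ≤ t.1 := by positivity
    have h4 : (t.1 : ℤ) * (-|X.ray i z|) ≤ (t.1 : ℤ) * X.ray i z :=
      mul_le_mul_of_nonneg_left h2 h3
    have h5 : (t.1 : ℤ) * |X.ray i z| ≤ r * |X.ray i z| :=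
      mul_le_mul_of_nonneg_right h1 (abs_nonneg _)
    simp only [a]
    linarith
  let f : Fin r → Mon X.deg D := fun t =>
    ⟨Finsupp.equivFunOnFinite.symm fun i => (a i + (t.1 : ℤ) * X.ray i z).toNat, by
      rw [weight_deg, eq_comm, QuotientAddGroup.eq]
      refine ⟨Pi.single z (t.1 : ℤ), ?_⟩
      funext i
      simp only [Pi.add_apply, Pi.neg_apply, Finsupp.equivFunOnFinite_symm_apply_apply]
      rw [Int.toNat_of_nonneg (hnn t i)]
      change pair _ _ = _
      rw [pair, Finset.sum_eq_single z (by intro j _ hj; simp [hj]) (by simp)]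
      simp⟩
  have hf : Function.Injective f := by
    intro t t' h
    have h1 := DFunLike.congr_fun (congrArg Subtype.val h) i₀
    simp only [f, Finsupp.equivFunOnFinite_symm_apply_apply] at h1
    have h2 := congrArg (fun x : ℕ => (x : ℤ)) h1
    rw [Int.toNat_of_nonneg (hnn t i₀), Int.toNat_of_nonneg (hnn t' i₀)] at h2
    have h3 : (t.1 : ℤ) * X.ray i₀ z = (t'.1 : ℤ) * X.ray i₀ z := by linarith
    have h4 := mul_right_cancel₀ hi₀ h3
    exact Fin.ext (by exact_mod_cast h4)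
  have := Fintype.card_le_of_injective f hf
  simpa using this

/-- In dimension zero there are no rays. -/
theorem isEmpty_of_zero (X : Fan 0 ι) : IsEmpty ι := by
  refine ⟨fun i => ?_⟩
  obtain ⟨σ, hσ, hi⟩ := X.used i
  have h := X.independent σ hσ
  have := h.ne_zero ⟨i, hi⟩
  exact this (Subsingleton.elim _ _)

theorem boolean_flags {𝕜 : Type} [RCLike 𝕜] (X : Fan n ι) {r : ℕ} (I : Ideal (MvPolynomial ι 𝕜))
    (hI : I ∈ slip X.deg (X.locus 𝕜) r) :
    ∃ (J : Finset (Fin r) → Ideal (MvPolynomial ι 𝕜)) (q : ℕ → Fin r → ι → 𝕜),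
      J Finset.univ = I ∧ J ∅ = ⊤ ∧ (∀ S, J S ∈ slip X.deg (X.locus 𝕜) S.card) ∧
      (∀ S T, S ⊆ T → J T ≤ J S) ∧ (∀ S T, J S * J T ≤ J (S ∪ T)) ∧
      (∀ n i, q n i ∈ X.locus 𝕜) ∧
      ∀ S, (∀ n D, hilb X.deg (onSet X.deg (q n) S) D = genHilb 𝕜 X.deg S.card D) ∧
        Converges X.deg (fun n => onSet X.deg (q n) S) (J S) := by
  have hc : Countable X.Cl := by
    have : Countable (ι → ℤ) := inferInstance
    exact QuotientAddGroup.mk_surjective.countable
  rcases Nat.eq_zero_or_pos n with hn | hn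
  · subst hn
    have hem := X.isEmpty_of_zero
    rcases Nat.lt_or_ge r 2 with hr2 | hr2
    · refine boolean X.deg X.finite_mon (X.locus_open 𝕜) ⟨0, ?_⟩ I hI
      have := X.finite_mon 0
      have : Fintype (Mon X.deg 0) := Fintype.ofFinite _
      rw [finrank_degree]
      have h1 : 0 < Fintype.card (Mon X.deg 0) := Fintype.card_pos_iff.2 ⟨⟨0, by simp⟩⟩
      omega
    · exfalso
      obtain ⟨-, -, J, hJ, -⟩ := hI
      obtain ⟨p, -, hd, -, -⟩ := hJ 0
      refine hd ⟨0, by omega⟩ ⟨1, by omega⟩ (by simp) ?_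
      exact ⟨1, fun i => (hem.false i).elim⟩
  · exact boolean X.deg X.finite_mon (X.locus_open 𝕜) (X.exists_big 𝕜 hn r) I hI

end Fan

end Pool.Agent.Y397.SL
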